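import Pool.Agent.Q267.E8.Stm

set_option autoImplicit false

/-!
# Project E8 (helper267), job HQ (helper10): the harmonic number at a quarter of a prime
-/

namespace Pool.Agent.Q10.E8.HQ

open Finset Pool.Agent.Q267.CDE Pool.Agent.Q267.MW Pool.Agent.Q267.E8

variable {p : ℕ} [hp : Fact p.Prime]

theorem red_zero_of (z : R p) (h : (p : R p) * z = 0) : red p z = 0 := by
  obtain ⟨n, hn⟩ : ∃ n : ℤ, (n : R p) = z := ZMod.intCast_surjective _
  subst hn
  rw [red_int, ZMod.intCast_zmod_eq_zero_iff_dvd]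
  have h1 : (((p : ℤ) * n : ℤ) : R p) = 0 := by
    push_cast
    exact h
  rw [ZMod.intCast_zmod_eq_zero_iff_dvd] at h1
  obtain ⟨w, hw⟩ := h1
  have hp0 : (p : ℤ) ≠ 0 := by exact_mod_cast hp.out.ne_zero
  refine ⟨w, ?_⟩
  apply mul_left_cancel₀ hp0
  rw [hw]
  push_cast
  ring

theorem red_inv (y : R p) (h : red p y ≠ 0) : red p y⁻¹ = (red p y)⁻¹ := by
  have h1 : y * y⁻¹ = 1 := ZMod.mul_inv_of_unit _ (isUnit_of_red p h)
  have h2 := congrArg (red p) h1
  rw [map_mul, map_one] at h2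
  exact eq_inv_of_mul_eq_one_right h2

theorem prod_one_sub (s : Finset (ZMod p)) (c : ZMod p → R p) :
    ∏ x ∈ s, (1 - (p : R p) * c x) = 1 - p * ∑ x ∈ s, c x := by
  induction s using Finset.induction_on with
  | empty => simp
  | insert a s ha ih =>
    rw [Finset.prod_insert ha, Finset.sum_insert ha, ih]
    have h := p_sq p
    linear_combination (c a * ∑ x ∈ s, c x) * h

/-- the quotients -/
def qx (x : ZMod p) : ℕ := 4 * x.val / p

theorem lift_four (hp5 : 4 < p) (x : ZMod p) :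
    lift p (4 * x) = 4 * lift p x - p * (qx x : R p) := by
  have h4 : (4 : ZMod p).val = 4 := by
    have := ZMod.val_natCast_of_lt (n := p) (a := 4) hp5
    exact_mod_cast this
  unfold lift qx
  rw [ZMod.val_mul, h4]
  have h := Nat.div_add_mod (4 * x.val) p
  have h' : (p : R p) * ((4 * x.val / p : ℕ) : R p) + ((4 * x.val % p : ℕ) : R p) =
      4 * ((x.val : ℕ) : R p) := by
    exact_mod_cast congrArg (Nat.cast (R := R p)) h
  linear_combination h'

theorem main_prod (hp5 : 4 < p) :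
    (4 : R p) ^ (p - 1) * (1 - p * ∑ x ∈ (univ : Finset (ZMod p)).erase 0,
      (qx x : R p) * (4 * lift p x)⁻¹) = 1 := by
  have h4 : (4 : ZMod p) ≠ 0 := by
    have := cast_ne p 4 (by norm_num) hp5
    exact_mod_cast this
  have hu : ∀ x ∈ (univ : Finset (ZMod p)).erase 0, IsUnit (lift p x) := by
    intro x hx
    apply isUnit_of_red
    rw [red_lift]
    exact (Finset.mem_erase.1 hx).1
  have hu4 : IsUnit (4 : R p) := by
    apply isUnit_of_red
    have : red p (4 : R p) = 4 := by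
      have := red_nat p 4
      exact_mod_cast this
    rw [this]
    exact h4
  have e1 : ∏ x ∈ (univ : Finset (ZMod p)).erase 0, lift p x =
      ∏ x ∈ (univ : Finset (ZMod p)).erase 0, lift p (4 * x) := by
    symm
    refine Finset.prod_equiv (Equiv.mulLeft₀ (4 : ZMod p) h4) ?_ ?_
    · intro x
      simp only [Finset.mem_erase, Finset.mem_univ, and_true, Equiv.mulLeft₀_apply, Ne,
        mul_eq_zero, h4, false_or]
    · intro x _
      rfl
  have e2 : ∏ x ∈ (univ : Finset (ZMod p)).erase 0, lift p (4 * x) =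
      ∏ x ∈ (univ : Finset (ZMod p)).erase 0, (4 * lift p x *
        (1 - p * ((qx x : R p) * (4 * lift p x)⁻¹))) := by
    refine Finset.prod_congr rfl fun x hx => ?_
    rw [lift_four hp5]
    have h1 : (4 * lift p x) * (4 * lift p x)⁻¹ = 1 :=
      ZMod.mul_inv_of_unit _ (hu4.mul (hu x hx))
    linear_combination (-(p : R p) * (qx x : R p)) * (-h1)
  have e3 : ∏ x ∈ (univ : Finset (ZMod p)).erase 0, (4 * lift p x *
        (1 - p * ((qx x : R p) * (4 * lift p x)⁻¹))) =
      4 ^ (p - 1) * (∏ x ∈ (univ : Finset (ZMod p)).erase 0, lift p x) *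
        (1 - p * ∑ x ∈ (univ : Finset (ZMod p)).erase 0, (qx x : R p) * (4 * lift p x)⁻¹) := by
    rw [Finset.prod_mul_distrib, Finset.prod_mul_distrib, Finset.prod_const, prod_one_sub]
    rw [Finset.card_erase_of_mem (Finset.mem_univ _), Finset.card_univ, ZMod.card]
  have hP : IsUnit (∏ x ∈ (univ : Finset (ZMod p)).erase 0, lift p x) :=
    (IsUnit.prod_iff).2 hu
  apply hP.mul_left_cancel
  rw [mul_one]
  conv_rhs => rw [e1, e2, e3]
  ring

theorem sum_range_eq (f : ZMod p → ZMod p) :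
    ∑ x ∈ (univ : Finset (ZMod p)).erase 0, f x = ∑ k ∈ range (p - 1), f (((k + 1 : ℕ) : ZMod p)) := by
  have hp1 := hp.out.one_lt
  refine Finset.sum_nbij' (fun x => x.val - 1) (fun k => ((k + 1 : ℕ) : ZMod p)) ?_ ?_ ?_ ?_ ?_
  · intro x hx
    have h1 : x.val ≠ 0 := by
      rw [Ne, ZMod.val_eq_zero]
      exact (Finset.mem_erase.1 hx).1
    have h2 := ZMod.val_lt x
    rw [Finset.mem_range]
    omega
  · intro k hk
    rw [Finset.mem_range] at hk
    exact Finset.mem_erase.2 ⟨cast_ne p (k + 1) (by omega) (by omega), Finset.mem_univ _⟩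
  · intro x hx
    have h1 : x.val ≠ 0 := by
      rw [Ne, ZMod.val_eq_zero]
      exact (Finset.mem_erase.1 hx).1
    rw [Nat.sub_add_cancel (by omega), ZMod.natCast_zmod_val]
  · intro k hk
    rw [Finset.mem_range] at hk
    rw [ZMod.val_natCast_of_lt (by omega)]
    omega
  · intro x hx
    have h1 : x.val ≠ 0 := by
      rw [Ne, ZMod.val_eq_zero]
      exact (Finset.mem_erase.1 hx).1
    rw [Nat.sub_add_cancel (by omega), ZMod.natCast_zmod_val]

theorem sum_ge (n : ℕ) (hn : n ≤ p - 1) :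
    ∑ k ∈ range (p - 1), (if n ≤ k then (1 : ZMod p) else 0) * ((k : ZMod p) + 1)⁻¹ =
      H (ZMod p) (p - 1) - H (ZMod p) n := by
  have h1 : H (ZMod p) n = ∑ k ∈ range (p - 1),
      (if n ≤ k then (0 : ZMod p) else 1) * ((k : ZMod p) + 1)⁻¹ := by
    unfold H
    rw [← Finset.sum_subset (Finset.range_subset_range.2 hn)]
    · refine Finset.sum_congr rfl fun k hk => ?_
      rw [Finset.mem_range] at hk
      rw [if_neg (by omega), one_mul]
    · intro k _ hk
      rw [Finset.mem_range] at hk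
      rw [if_pos (by omega), zero_mul]
  rw [h1]
  unfold H
  rw [← Finset.sum_sub_distrib]
  refine Finset.sum_congr rfl fun k _ => ?_
  split_ifs
  · rw [one_mul, zero_mul, sub_zero]
  · rw [one_mul, zero_mul, sub_self]

theorem div_eq (hodd : p % 2 = 1) (k : ℕ) (hk : k < p - 1) :
    4 * (k + 1) / p = (if p / 4 ≤ k then 1 else 0) + (if 2 * p / 4 ≤ k then 1 else 0) +
      (if 3 * p / 4 ≤ k then 1 else 0) := by
  have hp0 := hp.out.pos
  have h0 : 4 * (k + 1) < 4 * p := by omega
  have key : ∀ j, j * p ≤ 4 * (k + 1) → 4 * (k + 1) < (j + 1) * p → 4 * (k + 1) / p = j := by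
    intro j h1 h2
    exact Nat.div_eq_of_lt_le h1 h2
  split_ifs with h1 h2 h3 h3 h2 h3 h3
  · rw [key 3 (by omega) (by omega)]
  · rw [key 2 (by omega) (by omega)]
  · omega
  · rw [key 1 (by omega) (by omega)]
  · omega
  · omega
  · omega
  · rw [key 0 (by omega) (by omega)]

end Pool.Agent.Q10.E8.HQ

namespace Pool.Agent.Q10.E8

open Finset Pool.Agent.Q267.CDE Pool.Agent.Q267.MW Pool.Agent.Q267.E8

theorem hq : S_HM → S_HQ := by
  intro hm p m hp Q hpm hp3 hQ
  have hp1 := hp.out.one_lt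
  have hp5 : 4 < p := by omega
  have hodd : Odd p := ⟨m, hpm⟩
  have hH := hm p m Q hpm hQ
  have h1 := HQ.main_prod (p := p) hp5
  have h2 : (4 : R p) ^ (p - 1) = 1 + p * (2 * lift p Q) := by
    have e : (4 : R p) ^ (p - 1) = ((2 : R p) ^ (p - 1)) ^ 2 := by
      rw [← pow_mul, mul_comm, pow_mul]
      norm_num
    rw [e, hQ]
    linear_combination (lift p Q) ^ 2 * p_sq p
  rw [h2] at h1
  obtain ⟨s, hs⟩ : ∃ s : R p, s = ∑ x ∈ (univ : Finset (ZMod p)).erase 0,
      (HQ.qx x : R p) * (4 * lift p x)⁻¹ := ⟨_, rfl⟩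
  rw [← hs] at h1
  have h3 : (p : R p) * (2 * lift p Q - s) = 0 := by
    linear_combination h1 + 2 * lift p Q * s * p_sq p
  have h4 := HQ.red_zero_of _ h3
  rw [map_sub, map_mul, red_lift] at h4
  have h40 : (4 : ZMod p) ≠ 0 := by
    have := cast_ne p 4 (by norm_num) hp5
    exact_mod_cast this
  have h20 : (2 : ZMod p) ≠ 0 := by
    have := cast_ne p 2 (by norm_num) (by omega)
    exact_mod_cast this
  have r2 : red p (2 : R p) = 2 := by
    have := red_nat p 2
    exact_mod_cast this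
  have r4 : red p (4 : R p) = 4 := by
    have := red_nat p 4
    exact_mod_cast this
  have h5 : 4 * red p s = ∑ k ∈ range (p - 1),
      ((4 * (k + 1) / p : ℕ) : ZMod p) * ((k : ZMod p) + 1)⁻¹ := by
    rw [hs, map_sum, Finset.mul_sum]
    have e : ∀ x ∈ (univ : Finset (ZMod p)).erase 0,
        4 * red p ((HQ.qx x : R p) * (4 * lift p x)⁻¹) = ((HQ.qx x : ℕ) : ZMod p) * x⁻¹ := by
      intro x hx
      have hx0 := (Finset.mem_erase.1 hx).1
      rw [map_mul, red_nat, HQ.red_inv, map_mul, red_lift, r4, mul_inv]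
      · rw [← mul_assoc, mul_comm (4 : ZMod p), mul_assoc, ← mul_assoc (4 : ZMod p),
          mul_inv_cancel₀ h40, one_mul]
      · rw [map_mul, red_lift, r4]
        exact mul_ne_zero h40 hx0
    rw [Finset.sum_congr rfl e, HQ.sum_range_eq]
    refine Finset.sum_congr rfl fun k hk => ?_
    rw [Finset.mem_range] at hk
    unfold HQ.qx
    rw [ZMod.val_natCast_of_lt (by omega)]
    push_cast
    rfl
  have h6 : ∑ k ∈ range (p - 1), ((4 * (k + 1) / p : ℕ) : ZMod p) * ((k : ZMod p) + 1)⁻¹ =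
      (H (ZMod p) (p - 1) - H (ZMod p) (p / 4)) + (H (ZMod p) (p - 1) - H (ZMod p) (2 * p / 4)) +
      (H (ZMod p) (p - 1) - H (ZMod p) (3 * p / 4)) := by
    rw [← HQ.sum_ge (p / 4) (by omega), ← HQ.sum_ge (2 * p / 4) (by omega),
      ← HQ.sum_ge (3 * p / 4) (by omega), ← Finset.sum_add_distrib, ← Finset.sum_add_distrib]
    refine Finset.sum_congr rfl fun k hk => ?_
    rw [Finset.mem_range] at hk
    rw [HQ.div_eq (by omega) k hk]
    push_cast
    ring
  have h7 : H (ZMod p) (3 * p / 4) = H (ZMod p) (p / 4) := by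
    rw [← H_refl p hodd (p / 4) (by omega)]
    congr 1
    omega
  have h8 : 2 * p / 4 = m := by omega
  rw [h6, H_last p hodd, h7, h8, hH] at h5
  rw [r2] at h4
  have h9 : (2 : ZMod p) * (H (ZMod p) (p / 4) + 3 * Q) = 0 := by
    linear_combination h5 + 4 * h4
  rcases mul_eq_zero.1 h9 with h10 | h10
  · exact absurd h10 h20
  · linear_combination h10

end Pool.Agent.Q10.E8
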