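import Pool.Agent.Q267.E8.Stm

set_option autoImplicit false

/-!
# Project E8 (helper267), jobs RA and RB (helper10): the rational sum and its class modulo `p²`
-/

namespace Pool.Agent.Q10.E8

open Finset Pool.Agent.Q267.CDE Pool.Agent.Q267.MW Pool.Agent.Q267.E8

section

variable (p : ℕ) [hp : Fact p.Prime]

theorem isRed_int (n : ℤ) : IsRed p (n : ℚ) (n : R p) :=
  ⟨n, 1, fun h => hp.out.one_lt.ne' (Nat.dvd_one.1 h), by simp, by simp⟩

theorem isRed_nat (n : ℕ) : IsRed p (n : ℚ) (n : R p) := by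
  have := isRed_int p (n : ℤ)
  push_cast at this
  exact this

variable {p}

theorem ne_zero_of_not_dvd {d : ℕ} (h : ¬ p ∣ d) : (d : ℚ) ≠ 0 := by
  intro h0
  apply h
  have : d = 0 := by exact_mod_cast h0
  rw [this]
  exact dvd_zero p

theorem not_dvd_mul {d d' : ℕ} (h : ¬ p ∣ d) (h' : ¬ p ∣ d') : ¬ p ∣ d * d' := by
  intro h2
  rcases (Nat.Prime.dvd_mul hp.out).1 h2 with h3 | h3
  · exact h h3
  · exact h' h3

theorem isRed_add {r r' : ℚ} {c c' : R p} (h : IsRed p r c) (h' : IsRed p r' c') :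
    IsRed p (r + r') (c + c') := by
  obtain ⟨n, d, hd, hr, hn⟩ := h
  obtain ⟨n', d', hd', hr', hn'⟩ := h'
  refine ⟨n * d' + n' * d, d * d', not_dvd_mul hd hd', ?_, ?_⟩
  · rw [hr, hr']
    have h1 := ne_zero_of_not_dvd hd
    have h2 := ne_zero_of_not_dvd hd'
    push_cast
    field_simp
  · push_cast
    rw [hn, hn']
    ring

theorem isRed_mul {r r' : ℚ} {c c' : R p} (h : IsRed p r c) (h' : IsRed p r' c') :
    IsRed p (r * r') (c * c') := by
  obtain ⟨n, d, hd, hr, hn⟩ := h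
  obtain ⟨n', d', hd', hr', hn'⟩ := h'
  refine ⟨n * n', d * d', not_dvd_mul hd hd', ?_, ?_⟩
  · rw [hr, hr']
    have h1 := ne_zero_of_not_dvd hd
    have h2 := ne_zero_of_not_dvd hd'
    push_cast
    field_simp
  · push_cast
    rw [hn, hn']
    ring

theorem isRed_pow {r : ℚ} {c : R p} (h : IsRed p r c) (k : ℕ) : IsRed p (r ^ k) (c ^ k) := by
  induction k with
  | zero =>
    rw [pow_zero, pow_zero]
    have := isRed_nat p 1
    push_cast at this
    exact this
  | succ k ih =>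
    rw [pow_succ, pow_succ]
    exact isRed_mul ih h

theorem isRed_prod (f : ℕ → ℚ) (g : ℕ → R p) (h : ∀ i, IsRed p (f i) (g i)) (k : ℕ) :
    IsRed p (∏ i ∈ range k, f i) (∏ i ∈ range k, g i) := by
  induction k with
  | zero =>
    rw [prod_range_zero, prod_range_zero]
    have := isRed_nat p 1
    push_cast at this
    exact this
  | succ k ih =>
    rw [prod_range_succ, prod_range_succ]
    exact isRed_mul ih (h k)

theorem isRed_sum (f : ℕ → ℚ) (g : ℕ → R p) (k : ℕ) (h : ∀ i, i < k → IsRed p (f i) (g i)) :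
    IsRed p (∑ i ∈ range k, f i) (∑ i ∈ range k, g i) := by
  induction k with
  | zero =>
    rw [sum_range_zero, sum_range_zero]
    have := isRed_nat p 0
    push_cast at this
    exact this
  | succ k ih =>
    rw [sum_range_succ, sum_range_succ]
    exact isRed_add (ih fun i hi => h i (by omega)) (h k (Nat.lt_succ_self k))

theorem isRed_inv {d : ℕ} (h : ¬ p ∣ d) : IsRed p ((d : ℚ)⁻¹) ((d : R p)⁻¹) := by
  refine ⟨1, d, h, ?_, ?_⟩
  · rw [Int.cast_one, one_div]
  · rw [ZMod.inv_mul_of_unit, Int.cast_one]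
    apply isUnit_of_red
    rw [red_nat, Ne, ZMod.natCast_eq_zero_iff]
    exact h

theorem isRed_bQ {a : ℚ} {x : R p} (h : IsRed p a x) {k : ℕ} (hk : k < p) :
    IsRed p (bQ a k) (bR p x k) := by
  unfold bQ bR
  rw [div_eq_mul_inv]
  refine isRed_mul (isRed_prod _ _ (fun i => ?_) k) (isRed_inv ?_)
  · rw [sub_eq_add_neg, sub_eq_add_neg]
    refine isRed_add h ?_
    have := isRed_int p (-(i : ℤ))
    push_cast at this
    exact this
  · intro h2
    exact absurd ((Nat.Prime.dvd_factorial hp.out).1 h2) (not_le.2 hk)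

end

theorem prod_half (k : ℕ) :
    (∏ i ∈ range k, ((-1 / 2 : ℚ) - i)) * (-4) ^ k = (k.centralBinom : ℚ) * (k.factorial : ℚ) := by
  induction k with
  | zero => simp
  | succ k ih =>
    rw [prod_range_succ, pow_succ, Nat.factorial_succ]
    have h1 : ((k : ℚ) + 1) * ((k + 1).centralBinom : ℚ) = 2 * (2 * k + 1) * (k.centralBinom : ℚ) := by
      exact_mod_cast Nat.succ_mul_centralBinom_succ k
    have h2 : (∏ i ∈ range k, ((-1 / 2 : ℚ) - i)) * (-1 / 2 - k) * ((-4) ^ k * -4) =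
        ((∏ i ∈ range k, ((-1 / 2 : ℚ) - i)) * (-4) ^ k) * (2 * (2 * k + 1)) := by ring
    rw [h2, ih]
    push_cast
    linear_combination (-(k.factorial : ℚ)) * h1

theorem bQ_half (k : ℕ) : bQ (-1 / 2) k * 2 ^ k = (k.centralBinom : ℚ) * (-1 / 2) ^ k := by
  have h := prod_half k
  have hf : (k.factorial : ℚ) ≠ 0 := by exact_mod_cast k.factorial_ne_zero
  have h4 : ((-4 : ℚ)) ^ k ≠ 0 := pow_ne_zero _ (by norm_num)
  have e1 : (∏ i ∈ range k, ((-1 / 2 : ℚ) - i)) =
      (k.centralBinom : ℚ) * (k.factorial : ℚ) / (-4) ^ k := by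
    rw [eq_div_iff h4]
    exact h
  unfold bQ
  rw [e1]
  have e2 : ((-1 / 2 : ℚ)) ^ k = 2 ^ k / (-4) ^ k := by
    rw [← div_pow]
    norm_num
  rw [e2]
  field_simp

theorem ra : S_RA := by
  intro p hp h x hp2 hh hx
  unfold SS TT
  refine isRed_sum _ _ p fun k hk => ?_
  rw [mul_assoc, bQ_half, mul_assoc]
  have hd2 : ¬ p ∣ 2 := fun h2 => hp2 ((Nat.prime_dvd_prime_iff_eq hp.out Nat.prime_two).1 h2)
  have hd4 : ¬ p ∣ 4 := by
    intro h4
    have : p ∣ 2 ^ 2 := by norm_num; exact h4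
    exact hd2 (hp.out.dvd_of_dvd_pow this)
  refine isRed_mul (isRed_bQ ?_ hk) (isRed_mul (isRed_nat p _) (isRed_pow ?_ k))
  · refine ⟨-1, 4, hd4, by norm_num, ?_⟩
    push_cast
    linear_combination -hx
  · refine ⟨-1, 2, hd2, by norm_num, ?_⟩
    push_cast
    linear_combination -hh

theorem rb : S_RB := by
  intro p hp u v c hu
  obtain ⟨n, d, hd, hr, hn⟩ := hu
  have hd0 := ne_zero_of_not_dvd hd
  constructor
  · rintro ⟨n', d', hd', hr', hn'⟩
    have hd0' := ne_zero_of_not_dvd hd'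
    have h1 : ((n * d' - n' * d : ℤ) : R p) = 0 := by
      push_cast
      rw [hn, hn']
      ring
    rw [ZMod.intCast_zmod_eq_zero_iff_dvd] at h1
    obtain ⟨w, hw⟩ := h1
    refine ⟨w, d * d', not_dvd_mul hd hd', ?_⟩
    have h2 : (n : ℚ) * d' - n' * d = (p : ℚ) ^ 2 * w := by exact_mod_cast hw
    rw [hr, hr']
    push_cast
    rw [div_sub_div _ _ hd0 hd0', mul_div_assoc', div_left_inj' (mul_ne_zero hd0 hd0')]
    linear_combination h2
  · intro hc
    have h1 : ((n : ℤ) : ZMod p) = 0 := by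
      have := congrArg (red p) hn
      rw [map_mul, hc, zero_mul, map_intCast] at this
      exact this
    rw [ZMod.intCast_zmod_eq_zero_iff_dvd] at h1
    obtain ⟨w, hw⟩ := h1
    refine ⟨w, d, hd, ?_⟩
    rw [hr, sub_zero, pow_one, hw]
    push_cast
    rw [mul_div_assoc]

end Pool.Agent.Q10.E8
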